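import Mathlib
import Pool.Agent.U424.DQ.Stm

/-!
# Project DQ, part LOCTM: local common values of two diagonal forms
-/

set_option autoImplicit false

namespace Pool.Agent.U293.DQ

open Pool.Agent.N718.DC Pool.Agent.U424.DQ

theorem norm_two {p : ℕ} [hp : Fact p.Prime] :
    (p : ℝ) ^ (-((3 : ℕ) : ℤ)) < ‖(2 : ℤ_[p])‖ ^ 2 := by
  by_cases h : p = 2
  · subst h
    have h1 : ‖((2 : ℕ) : ℤ_[2])‖ = ((2 : ℕ) : ℝ)⁻¹ := PadicInt.norm_p
    have h2 : ‖(2 : ℤ_[2])‖ = (2 : ℝ)⁻¹ := by exact_mod_cast h1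
    rw [h2]
    norm_num
  · have h1 : ‖((2 : ℤ) : ℤ_[p])‖ = 1 := by
      rcases lt_or_eq_of_le (PadicInt.norm_le_one ((2 : ℤ) : ℤ_[p])) with h2 | h2
      · exfalso
        rw [PadicInt.norm_int_lt_one_iff_dvd] at h2
        have h3 : p ∣ 2 := by exact_mod_cast h2
        exact h ((Nat.prime_dvd_prime_iff_eq hp.out Nat.prime_two).1 h3)
      · exact h2
    have h2 : ‖(2 : ℤ_[p])‖ = 1 := by exact_mod_cast h1
    rw [h2, one_pow, zpow_neg, zpow_natCast]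
    have h3 : (1 : ℝ) < p := by exact_mod_cast hp.out.one_lt
    exact inv_lt_one_of_one_lt₀ (one_lt_pow₀ h3 (by norm_num))

theorem sq_of_close {p : ℕ} [hp : Fact p.Prime] {x y : ℤ_[p]} (hy : ‖y‖ = 1)
    (h : ‖x - y‖ ≤ (p : ℝ) ^ (-((3 : ℕ) : ℤ))) :
    ∃ c : ℚ_[p], c ≠ 0 ∧ (x : ℚ_[p]) = y * c ^ 2 := by
  obtain ⟨w, hw⟩ := (PadicInt.isUnit_iff.2 hy).exists_right_inv
  have hwn : ‖w‖ = 1 := by
    have := congrArg norm hw
    rw [norm_mul, hy, one_mul, norm_one] at this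
    exact this
  let F : Polynomial ℤ_[p] := Polynomial.X ^ 2 - Polynomial.C (x * w)
  have e1 : Polynomial.aeval (1 : ℤ_[p]) F = -((x - y) * w) := by
    simp only [F, map_sub, map_pow, Polynomial.aeval_X, Polynomial.aeval_C, one_pow,
      Algebra.algebraMap_self, RingHom.id_apply]
    linear_combination -hw
  have e2 : Polynomial.aeval (1 : ℤ_[p]) (Polynomial.derivative F) = 2 := by
    simp [F]
    norm_num
  obtain ⟨z, hz, -⟩ := hensels_lemma (F := F) (a := (1 : ℤ_[p])) (by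
    rw [e1, e2, norm_neg, norm_mul, hwn, mul_one]
    exact lt_of_le_of_lt h norm_two)
  have hz2 : z ^ 2 = x * w := by
    simp only [F, map_sub, map_pow, Polynomial.aeval_X, Polynomial.aeval_C,
      Algebra.algebraMap_self, RingHom.id_apply] at hz
    linear_combination hz
  have hx : x = y * z ^ 2 := by
    rw [hz2]
    linear_combination -x * hw
  have hz0 : z ≠ 0 := by
    rintro rfl
    have h1 : x = 0 := by rw [hx]; ring
    rw [h1, zero_sub, norm_neg, hy, zpow_neg, zpow_natCast] at h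
    have h3 : (1 : ℝ) < p := by exact_mod_cast hp.out.one_lt
    have h4 := inv_lt_one_of_one_lt₀ (one_lt_pow₀ h3 (by norm_num : 3 ≠ 0))
    linarith
  refine ⟨z, ?_, ?_⟩
  · intro h0
    exact hz0 (PadicInt.coe_eq_zero.1 h0)
  · rw [hx]
    push_cast
    ring

/-- integers near a nonzero `p`-adic number, up to squares -/
theorem exists_near {p : ℕ} [hp : Fact p.Prime] {τ : ℚ_[p]} (hτ : τ ≠ 0) :
    ∃ (k : ℕ) (u : ℤ), ¬ (p : ℤ) ∣ u ∧ ∀ t : ℤ, (p : ℤ) ^ (k + 3) ∣ t - (p : ℤ) ^ k * u →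
      ∃ z : ℚ_[p], z ≠ 0 ∧ (t : ℚ_[p]) = τ * z ^ 2 := by
  have hp0 : (p : ℚ_[p]) ≠ 0 := by exact_mod_cast hp.out.ne_zero
  obtain ⟨v, hv⟩ : ∃ v : ℤ, v = τ.valuation := ⟨_, rfl⟩
  have hn : ‖τ * (p : ℚ_[p]) ^ (-v)‖ = 1 := by
    rw [norm_mul, Padic.norm_eq_zpow_neg_valuation hτ, ← hv, norm_zpow, Padic.norm_p, inv_zpow,
      ← zpow_neg, neg_neg, ← zpow_add₀ (by exact_mod_cast hp.out.ne_zero)]
    simp
  obtain ⟨ε, hε⟩ : ∃ ε : ℤ_[p], (ε : ℚ_[p]) = τ * (p : ℚ_[p]) ^ (-v) :=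
    ⟨⟨_, hn.le⟩, rfl⟩
  have hεn : ‖ε‖ = 1 := by rw [PadicInt.norm_def, hε, hn]
  obtain ⟨u, hu⟩ : ∃ u : ℤ, ‖(u : ℤ_[p]) - ε‖ ≤ (p : ℝ) ^ (-((3 : ℕ) : ℤ)) := by
    refine ⟨(ε.appr 3 : ℕ), ?_⟩
    have h1 := (PadicInt.norm_le_pow_iff_mem_span_pow (ε - ((ε.appr 3 : ℕ) : ℤ_[p])) 3).2
      (PadicInt.appr_spec 3 ε)
    rw [norm_sub_rev] at h1
    exact_mod_cast h1
  have h3 : (1 : ℝ) < p := by exact_mod_cast hp.out.one_lt
  have h4 : (p : ℝ) ^ (-((3 : ℕ) : ℤ)) < 1 := by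
    rw [zpow_neg, zpow_natCast]
    exact inv_lt_one_of_one_lt₀ (one_lt_pow₀ h3 (by norm_num))
  obtain ⟨j, hj⟩ : ∃ j : ℕ, j = v.natAbs := ⟨_, rfl⟩
  obtain ⟨k, hk⟩ : ∃ k : ℕ, (k : ℤ) = v + 2 * j := ⟨(v + 2 * j).toNat, by omega⟩
  refine ⟨k, u, ?_, ?_⟩
  · intro hdvd
    rw [← PadicInt.norm_int_lt_one_iff_dvd] at hdvd
    have h5 : ‖ε‖ < 1 := by
      have h6 : ε = (u : ℤ_[p]) + -((u : ℤ_[p]) - ε) := by ring
      rw [h6]
      exact lt_of_le_of_lt (PadicInt.nonarchimedean _ _) (max_lt hdvd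
        (show ‖-((u : ℤ_[p]) - ε)‖ < 1 by rw [norm_neg]; exact hu.trans_lt h4))
    rw [hεn] at h5
    exact lt_irrefl _ h5
  · rintro t ⟨m, hm⟩
    obtain ⟨n, hn'⟩ : ∃ n : ℤ, n = u + (p : ℤ) ^ 3 * m := ⟨_, rfl⟩
    have ht : t = (p : ℤ) ^ k * n := by
      rw [hn']
      rw [pow_add] at hm
      linear_combination hm
    have h5 : ‖(n : ℤ_[p]) - ε‖ ≤ (p : ℝ) ^ (-((3 : ℕ) : ℤ)) := by
      have h6 : (n : ℤ_[p]) - ε = ((u : ℤ_[p]) - ε) + (p : ℤ_[p]) ^ 3 * (m : ℤ_[p]) := by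
        rw [hn']
        push_cast
        ring
      rw [h6]
      refine (PadicInt.nonarchimedean _ _).trans (max_le hu ?_)
      rw [PadicInt.norm_le_pow_iff_mem_span_pow]
      exact Ideal.mul_mem_right _ _ (Ideal.mem_span_singleton_self _)
    obtain ⟨c, hc0, hc⟩ := sq_of_close hεn h5
    refine ⟨(p : ℚ_[p]) ^ j * c, mul_ne_zero (pow_ne_zero _ hp0) hc0, ?_⟩
    have h7 : (n : ℚ_[p]) = ε * c ^ 2 := by
      rw [← hc]
      simp
    rw [ht]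
    push_cast
    rw [h7, hε]
    have h8 : (p : ℚ_[p]) ^ k = (p : ℚ_[p]) ^ v * ((p : ℚ_[p]) ^ j) ^ 2 := by
      rw [← zpow_natCast, hk, zpow_add₀ hp0, ← pow_mul]
      congr 1
      rw [← zpow_natCast]
      congr 1
      push_cast
      ring
    rw [h8]
    have h9 : (p : ℚ_[p]) ^ v * (p : ℚ_[p]) ^ (-v) = 1 := by
      rw [← zpow_add₀ hp0]
      simp
    linear_combination (τ * ((p : ℚ_[p]) ^ j) ^ 2 * c ^ 2) * h9

theorem loctm_ : S_LOCTM := by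
  intro p hp n a b C hn ha hb hC hsol
  have ha' : (a : ℚ_[p]) ≠ 0 := by exact_mod_cast ha
  obtain ⟨U, hU0, hU⟩ := hsol
  rw [Fin.sum_univ_succ, Fin.sum_univ_succ] at hU
  simp only [Fin.cons_zero, Fin.cons_succ] at hU
  obtain ⟨x, hx⟩ : ∃ x, x = U 0 := ⟨_, rfl⟩
  obtain ⟨y, hy⟩ : ∃ y, y = U (Fin.succ 0) := ⟨_, rfl⟩
  obtain ⟨w, hw⟩ : ∃ w : Fin n → ℚ_[p], w = fun l => U l.succ.succ := ⟨_, rfl⟩
  have hU' : (a : ℚ_[p]) * x ^ 2 + (b * y ^ 2 + ∑ l, (C l : ℚ_[p]) * w l ^ 2) = 0 := by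
    rw [hx, hy, hw]
    exact hU
  -- the form in `(t, C)`
  have hM : ∀ (t : ℤ) (z : ℚ_[p]) (w' : Fin n → ℚ_[p]), (z ≠ 0 ∨ w' ≠ 0) →
      (t : ℚ_[p]) * z ^ 2 + ∑ l, (C l : ℚ_[p]) * w' l ^ 2 = 0 →
      SolM (fun l => (((Fin.cons t C : Fin (n + 1) → ℤ) l : ℤ) : ℚ_[p])) := by
    intro t z w' hne h
    refine ⟨Fin.cons z w', ?_, ?_⟩
    · intro h0
      rcases hne with h1 | h1
      · apply h1
        have := congrFun h0 0
        simpa using this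
      · apply h1
        funext l
        have := congrFun h0 l.succ
        simpa using this
    · rw [Fin.sum_univ_succ]
      simp only [Fin.cons_zero, Fin.cons_succ]
      exact h
  by_cases hxy : x = 0 ∧ y = 0
  · obtain ⟨k, u, hku, H⟩ := exists_near (p := p) ha'
    refine ⟨k, u, hku, fun t ht => ?_⟩
    obtain ⟨z, hz0, hz⟩ := H t ht
    refine ⟨⟨z, 0, 1, Or.inl hz0, by rw [hz]; ring⟩, hM t 0 w (Or.inr ?_) ?_⟩
    · intro hw0
      apply hU0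
      funext l
      refine Fin.cases ?_ (fun l => Fin.cases ?_ (fun l => ?_) l) l
      · rw [← hx]; exact hxy.1
      · rw [← hy]; exact hxy.2
      · have := congrFun hw0 l
        rw [hw] at this
        exact this
    · have h1 := hU'
      rw [hxy.1, hxy.2] at h1
      linear_combination h1
  · by_cases hτ : (a : ℚ_[p]) * x ^ 2 + b * y ^ 2 = 0
    · have hC0 : -((C ⟨0, hn⟩ : ℤ) : ℚ_[p]) ≠ 0 := neg_ne_zero.2 (by exact_mod_cast hC _)
      obtain ⟨k, u, hku, H⟩ := exists_near (p := p) hC0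
      refine ⟨k, u, hku, fun t ht => ?_⟩
      obtain ⟨z, hz0, hz⟩ := H t ht
      refine ⟨⟨x, y, 0, ?_, by rw [hτ]; ring⟩, hM t 1 (fun l => if l = ⟨0, hn⟩ then z else 0)
        (Or.inl one_ne_zero) ?_⟩
      · by_cases hx0 : x = 0
        · exact Or.inr (Or.inl fun hy0 => hxy ⟨hx0, hy0⟩)
        · exact Or.inl hx0
      · rw [Finset.sum_eq_single ⟨0, hn⟩]
        · rw [if_pos rfl, hz]
          ring
        · intro l _ hl
          rw [if_neg hl]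
          ring
        · intro h
          exact absurd (Finset.mem_univ _) h
    · obtain ⟨k, u, hku, H⟩ := exists_near (p := p) hτ
      refine ⟨k, u, hku, fun t ht => ?_⟩
      obtain ⟨z, hz0, hz⟩ := H t ht
      refine ⟨⟨x * z, y * z, 1, Or.inr (Or.inr one_ne_zero), ?_⟩, hM t z⁻¹ w
        (Or.inl (inv_ne_zero hz0)) ?_⟩
      · rw [hz]; ring
      · rw [hz]
        have h1 : (((a : ℚ_[p]) * x ^ 2 + b * y ^ 2) * z ^ 2) * z⁻¹ ^ 2 = a * x ^ 2 + b * y ^ 2 := by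
          field_simp
        rw [h1]
        linear_combination hU'

end Pool.Agent.U293.DQ
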